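import Pool.Agent.W114.VT.Stm
import Pool.Agent.W401.Cheb.Main

/-! VT-VC (helper114): the Chebotarev step. -/

set_option autoImplicit false

namespace Pool.Agent.W688.VT

open Pool.Agent.W114.VT Pool.Agent.W401.Cheb NumberField

lemma algInst : Algebra.IsAlgebraic ℚ (AlgebraicClosure ℚ) := by
  have h := AlgebraicClosure.isAlgebraic ℚ
  have e : (DivisionRing.toRatAlgebra : Algebra ℚ (AlgebraicClosure ℚ)) =
      AlgebraicClosure.instAlgebra ℚ := Subsingleton.elim _ _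
  rw [e]
  exact h

section gen

variable {A : Type} [Field A] [CharZero A] [IsAlgClosed A] [Algebra.IsAlgebraic ℚ A]

/-- a finite Galois extension of `ℚ` inside the algebraic closure, containing given elements -/
lemma exL (S : Set A) (hS : S.Finite) :
    ∃ (L : IntermediateField ℚ A), S ⊆ L ∧ NumberField L ∧ IsGalois ℚ L := by
  have : IsAlgClosure ℚ A := ⟨inferInstance, inferInstance⟩
  have hN : Normal ℚ A := IsAlgClosure.normal ℚ A
  have : Finite S := hS
  let L0 : IntermediateField ℚ A := IntermediateField.adjoin ℚ S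
  have h0 : FiniteDimensional ℚ L0 :=
    IntermediateField.finiteDimensional_adjoin (fun x _ => Algebra.IsIntegral.isIntegral x)
  let L : IntermediateField ℚ A := IntermediateField.normalClosure ℚ L0 A
  have h1 : FiniteDimensional ℚ L := normalClosure.is_finiteDimensional ℚ L0 A
  have h2 : Normal ℚ L := normalClosure.normal ℚ L0 A
  refine ⟨L, ?_, ?_, ?_⟩
  · intro x hx
    exact (IntermediateField.le_normalClosure L0) (IntermediateField.subset_adjoin ℚ S hx)
  · exact ⟨⟩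
  · exact ⟨⟩

/-- reduction at a large prime whose Frobenius is the given automorphism -/
lemma red (σ : A ≃ₐ[ℚ] A) (S : Set A) (hS : S.Finite) (B : ℕ) :
    ∃ (q : ℕ) (_ : Fact q.Prime) (L : IntermediateField ℚ A)
      (φ : 𝓞 L →+* AlgebraicClosure (ZMod q)), B < q ∧ S ⊆ L ∧
      ∀ x y : 𝓞 L, ((y : L) : A) = σ ((x : L) : A) → φ y = φ x ^ q := by
  obtain ⟨L, hSL, hNF, hG⟩ := exL S hS
  have hinf := infinite_frob L (σ.restrictNormal L)
  obtain ⟨q, ⟨hq, hxq⟩, hqB⟩ := hinf.exists_gt B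
  have hfact : Fact q.Prime := ⟨hq⟩
  obtain ⟨⟨φ, hφ⟩⟩ : Nonempty {φ : 𝓞 L →+* AlgebraicClosure (ZMod q) //
      HasFrob q φ (σ.restrictNormal L)} := by
    unfold xp at hxq
    rw [dif_pos hq] at hxq
    exact (Nat.card_ne_zero.mp hxq).1
  refine ⟨q, hfact, L, φ, hqB, hSL, ?_⟩
  intro x y hxy
  have h1 : y = (σ.restrictNormal L) • x := by
    apply RingOfIntegers.coe_injective
    have h2 : (((σ.restrictNormal L) • x : 𝓞 L) : L) = (σ.restrictNormal L) ((x : 𝓞 L) : L) := rfl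
    have h3 := AlgEquiv.restrictNormal_commutes σ L (x : L)
    have h4 : ((y : 𝓞 L) : L) = (((σ.restrictNormal L) • x : 𝓞 L) : L) := by
      rw [h2]
      apply Subtype.ext
      rw [hxy]
      exact h3.symm
    exact h4
  rw [h1]
  exact hφ x

end gen

/-- the arithmetic modulo `q` -/
lemma arith (q : ℕ) [hq : Fact q.Prime] (k : Type) [Field k] [Algebra (ZMod q) k]
    (p a u e i : ℕ) (hp : p.Prime) (hu : 2 ≤ u) (hq2 : 2 < q) (hqn : p ^ a * u < q)
    (z v w : k) (hz : z ^ 2 ^ e = -1) (hzq : z ^ q = -z)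
    (hv : v ^ 2 ^ e = ((p ^ a * u : ℕ) : k)) (hvq : v ^ q = v)
    (hw : w ^ 2 ^ e = (u : k)) (hwq : w ^ q = z ^ (2 * i) * w) (hi0 : i ≠ 0) (hi : i < 2 ^ e) :
    Odd (orderOf ((p ^ a * u : ℕ) : ZMod q)) ∧ ∃ j, (p : ZMod q) ^ j = -1 := by
  have hch : CharP k q := charP_of_injective_algebraMap (algebraMap (ZMod q) k).injective q
  have hne : ∀ m : ℕ, 0 < m → m < q → (m : k) ≠ 0 := by
    intro m hm hlt h0
    have h1 := (CharP.cast_eq_zero_iff k q m).mp h0
    exact absurd (Nat.le_of_dvd hm h1) (by omega)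
  have h2k : (2 : k) ≠ 0 := by
    have := hne 2 (by norm_num) hq2
    exact_mod_cast this
  have hm1 : (-1 : k) ≠ 1 := by
    intro h
    apply h2k
    linear_combination (-1 : k) * h
  have hpa : 0 < p ^ a := pow_pos hp.pos a
  have hqu : u < q := by
    have : u ≤ p ^ a * u := Nat.le_mul_of_pos_left u hpa
    omega
  have hn0 : ((p ^ a * u : ℕ) : k) ≠ 0 := hne _ (by positivity) hqn
  have hu0 : (u : k) ≠ 0 := hne _ (by omega) hqu
  have hz0 : z ≠ 0 := by
    intro h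
    rw [h, zero_pow (by positivity)] at hz
    exact one_ne_zero (neg_eq_zero.mp hz.symm)
  have hv0 : v ≠ 0 := by
    intro h
    rw [h, zero_pow (by positivity)] at hv
    exact hn0 hv.symm
  have hw0 : w ≠ 0 := by
    intro h
    rw [h, zero_pow (by positivity)] at hw
    exact hu0 hw.symm
  have hq1 : q = (q - 1) + 1 := by omega
  have hoz : orderOf z = 2 ^ (e + 1) := by
    apply orderOf_eq_prime_pow
    · rw [hz]; exact hm1
    · rw [pow_succ, pow_mul, hz]; norm_num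
  have hzq1 : z ^ (q - 1) = -1 := by
    rw [hq1, pow_succ] at hzq
    have : z ^ (q - 1) * z = (-1) * z := by rw [hzq]; ring
    exact mul_right_cancel₀ hz0 this
  have hvq1 : v ^ (q - 1) = 1 := by
    rw [hq1, pow_succ] at hvq
    have : v ^ (q - 1) * v = 1 * v := by rw [hvq]; ring
    exact mul_right_cancel₀ hv0 this
  have hwq1 : w ^ (q - 1) = z ^ (2 * i) := by
    rw [hq1, pow_succ] at hwq
    exact mul_right_cancel₀ hw0 hwq
  -- q - 1 = 2 ^ e * t
  have hd1 : 2 ^ e ∣ q - 1 := by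
    have h1 : z ^ ((q - 1) * 2) = 1 := by rw [pow_mul, hzq1]; norm_num
    have h2 := orderOf_dvd_of_pow_eq_one h1
    rw [hoz, pow_succ] at h2
    exact Nat.dvd_of_mul_dvd_mul_right (by norm_num) h2
  obtain ⟨t, ht⟩ := hd1
  have htodd : Odd t := by
    rw [← Nat.not_even_iff_odd]
    rintro ⟨s, hs⟩
    have h1 : 2 ^ (e + 1) ∣ q - 1 := ⟨s, by rw [ht, hs, pow_succ]; ring⟩
    rw [← hoz] at h1
    have h2 := orderOf_dvd_iff_pow_eq_one.mp h1
    rw [hzq1] at h2
    exact hm1 h2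
  have hnt : ((p ^ a * u : ℕ) : k) ^ t = 1 := by
    rw [← hv, ← pow_mul, ← ht, hvq1]
  have hut : (u : k) ^ t ≠ 1 := by
    rw [← hw, ← pow_mul, ← ht, hwq1]
    intro h
    have h1 := orderOf_dvd_of_pow_eq_one h
    rw [hoz, pow_succ, mul_comm] at h1
    have h2 := Nat.dvd_of_mul_dvd_mul_left (by norm_num) h1
    exact absurd (Nat.le_of_dvd (by omega) h2) (by omega)
  have hinj := (algebraMap (ZMod q) k).injective
  have hntZ : ((p ^ a * u : ℕ) : ZMod q) ^ t = 1 := by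
    apply hinj
    rw [map_pow, map_natCast, map_one]
    exact hnt
  have hutZ : (u : ZMod q) ^ t ≠ 1 := by
    intro h
    apply hut
    have := congrArg (algebraMap (ZMod q) k) h
    rwa [map_pow, map_natCast, map_one] at this
  have hodd : Odd (orderOf ((p ^ a * u : ℕ) : ZMod q)) :=
    Odd.of_dvd_nat htodd (orderOf_dvd_of_pow_eq_one hntZ)
  refine ⟨hodd, ?_⟩
  have hpk : (p : ZMod q) ≠ 0 := by
    intro h
    have hodd2 : ((p ^ a * u : ℕ) : ZMod q) ≠ 0 := by
      intro h0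
      apply hn0
      have := congrArg (algebraMap (ZMod q) k) h0
      rwa [map_natCast, map_zero] at this
    by_cases ha : a = 0
    · -- then u ^ t = 1
      subst ha
      rw [pow_zero, one_mul] at hntZ
      exact hutZ hntZ
    · apply hodd2
      push_cast
      rw [h, zero_pow ha, zero_mul]
  have hpow : (p : ZMod q) ^ (q - 1) = 1 := ZMod.pow_card_sub_one_eq_one hpk
  have hfin : 0 < orderOf (p : ZMod q) := by
    rw [orderOf_pos_iff, isOfFinOrder_iff_pow_eq_one]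
    exact ⟨q - 1, by omega, hpow⟩
  rcases Nat.even_or_odd (orderOf (p : ZMod q)) with hev | hod
  · obtain ⟨j, hj⟩ := hev
    refine ⟨j, ?_⟩
    have h1 : ((p : ZMod q) ^ j) * ((p : ZMod q) ^ j) = 1 := by
      rw [← pow_add, ← hj]
      exact pow_orderOf_eq_one _
    rcases mul_self_eq_one_iff.mp h1 with h2 | h2
    · exfalso
      have h3 := orderOf_dvd_of_pow_eq_one h2
      have h4 := Nat.le_of_dvd (by omega) h3
      omega
    · exact h2
  · exfalso
    have h1 := orderOf_dvd_of_pow_eq_one hpow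
    rw [ht] at h1
    have h2 : Nat.Coprime (orderOf (p : ZMod q)) (2 ^ e) :=
      Nat.Coprime.pow_right _ (Nat.coprime_two_right.mpr hod)
    have h3 := h2.dvd_of_dvd_mul_left h1
    have h4 : (p : ZMod q) ^ t = 1 := orderOf_dvd_iff_pow_eq_one.mp h3
    apply hutZ
    push_cast at hntZ
    rw [mul_pow, ← pow_mul, mul_comm a t, pow_mul, h4, one_pow, one_mul] at hntZ
    exact hntZ

/-- generic form -/
lemma main_gen {A : Type} [Field A] [CharZero A] [IsAlgClosed A] [Algebra.IsAlgebraic ℚ A]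
    (p a u e : ℕ) (σ : A ≃ₐ[ℚ] A) (ζ ν υ : A) (hp : p.Prime) (hu : 2 ≤ u)
    (prim : IsPrimitiveRoot ζ (2 ^ (e + 1)))
    (rn : ν ^ 2 ^ e = ((p ^ a * u : ℕ) : A))
    (ru : υ ^ 2 ^ e = (u : A))
    (z2 : σ (ζ ^ 2) = ζ ^ 2)
    (z1 : σ ζ ≠ ζ)
    (sn : σ ν = ν)
    (su : σ υ ≠ υ) (B : ℕ) : ∃ q j : ℕ, B < q ∧ q.Prime ∧
    Odd (orderOf ((p ^ a * u : ℕ) : ZMod q)) ∧ (p : ZMod q) ^ j = -1 := by
  obtain ⟨q, hq, L, φ, hqB, hSL, hφ⟩ := red σ {ζ, ν, υ} (by simp) (max B (max 2 (p ^ a * u)))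
  simp only [max_lt_iff] at hqB
  obtain ⟨hqB, hq2, hqn⟩ := hqB
  have hζL : ζ ∈ L := hSL (by simp)
  have hνL : ν ∈ L := hSL (by simp)
  have hυL : υ ∈ L := hSL (by simp)
  -- integral lifts
  have lift : ∀ (x : A) (hx : x ∈ L) (m : ℤ) (N : ℕ), N ≠ 0 → x ^ N = (m : A) →
      ∃ o : 𝓞 L, ((o : L) : A) = x ∧ o ^ N = (m : 𝓞 L) := by
    intro x hx m N hN hxm
    have h0 : (⟨x, hx⟩ : L) ^ N = (m : L) := by
      apply Subtype.ext
      simpa using hxm
    have h1 : IsIntegral ℤ (⟨x, hx⟩ : L) := by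
      apply IsIntegral.of_pow (Nat.pos_of_ne_zero hN)
      rw [h0]
      exact isIntegral_algebraMap (R := ℤ) (x := m)
    refine ⟨⟨⟨x, hx⟩, h1⟩, rfl, ?_⟩
    apply RingOfIntegers.coe_injective
    rw [map_pow, map_intCast]
    exact h0
  have hζe : ζ ^ 2 ^ e = -1 := by
    have h1 : (ζ ^ 2 ^ e) ^ 2 = 1 := by
      rw [← pow_mul, ← pow_succ]; exact prim.pow_eq_one
    rw [sq] at h1
    rcases mul_self_eq_one_iff.mp h1 with h | h
    · exact absurd h (prim.pow_ne_one_of_pos_of_lt (by positivity)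
        (by rw [pow_succ]; have : 0 < 2 ^ e := by positivity
            omega))
    · exact h
  obtain ⟨oz, hoz, hoze⟩ := lift ζ hζL (-1) (2 ^ e) (by positivity) (by rw [hζe]; simp)
  obtain ⟨ov, hov, hove⟩ := lift ν hνL ((p ^ a * u : ℕ) : ℤ) (2 ^ e) (by positivity)
    (by rw [rn]; simp)
  obtain ⟨ow, how, howe⟩ := lift υ hυL ((u : ℕ) : ℤ) (2 ^ e) (by positivity)
    (by rw [ru]; simp)
  have hu0 : (u : A) ≠ 0 := by
    have : u ≠ 0 := by omega
    exact_mod_cast this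
  have hυ0 : υ ≠ 0 := by
    intro h
    rw [h, zero_pow (by positivity)] at ru
    exact hu0 ru.symm
  have hζ0 : ζ ≠ 0 := prim.ne_zero (by positivity)
  -- σ ζ = -ζ
  have hσζ : σ ζ = -ζ := by
    have h1 : (σ ζ) ^ 2 = ζ ^ 2 := by rw [← map_pow]; exact z2
    rcases sq_eq_sq_iff_eq_or_eq_neg.mp h1 with h | h
    · exact absurd h z1
    · exact h
  -- σ υ = (ζ^2)^i υ
  have hprim2 : IsPrimitiveRoot (ζ ^ 2) (2 ^ e) := by
    have := prim.pow (by positivity) (show 2 ^ (e + 1) = 2 * 2 ^ e by ring)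
    exact this
  obtain ⟨i, hi, hiυ⟩ : ∃ i < 2 ^ e, (ζ ^ 2) ^ i = σ υ / υ := by
    have h1 : (σ υ / υ) ^ 2 ^ e = 1 := by
      rw [div_pow, ← map_pow, ru, map_natCast, div_self hu0]
    have : NeZero (2 ^ e) := ⟨by positivity⟩
    exact hprim2.eq_pow_of_pow_eq_one h1
  have hσυ : σ υ = ζ ^ (2 * i) * υ := by
    rw [pow_mul, hiυ, div_mul_cancel₀ _ hυ0]
  have hi0 : i ≠ 0 := by
    rintro rfl
    apply su
    rw [hσυ]; simp
  have hz1 : φ oz ^ 2 ^ e = -1 := by
    rw [← map_pow, hoze]; simp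
  have hzq : φ oz ^ q = - φ oz := by
    rw [← map_neg]
    symm
    apply hφ
    rw [hoz, hσζ]
    simp [hoz]
  have hv1 : φ ov ^ 2 ^ e = ((p ^ a * u : ℕ) : AlgebraicClosure (ZMod q)) := by
    rw [← map_pow, hove, map_intCast, Int.cast_natCast]
  have hvq : φ ov ^ q = φ ov := by
    symm
    apply hφ
    rw [hov, sn]
  have hw1 : φ ow ^ 2 ^ e = ((u : ℕ) : AlgebraicClosure (ZMod q)) := by
    rw [← map_pow, howe, map_intCast, Int.cast_natCast]
  have hwq : φ ow ^ q = φ oz ^ (2 * i) * φ ow := by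
    rw [← map_pow φ oz, ← map_mul]
    symm
    apply hφ
    rw [how, hσυ]
    simp [hoz, how]
  obtain ⟨h1, j, h2⟩ := arith q (AlgebraicClosure (ZMod q)) p a u e i hp hu hq2 hqn
    (φ oz) (φ ov) (φ ow) hz1 hzq hv1 hvq hw1 hwq hi0 hi
  exact ⟨q, j, hqB, hq.out, h1, h2⟩

theorem vc : S_VC := by
  intro p a u e σ ζ ν υ hp _ hu _ h B
  have := algInst
  obtain ⟨prim, rn, ru, z2, z1, sn, su⟩ := h
  exact main_gen p a u e σ ζ ν υ hp hu prim rn ru z2 z1 sn su B

end Pool.Agent.W688.VT
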