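import Pool.Agent.W688.VT.VC

/-! VT-VF (helper114): Kummer theory over the 2-power cyclotomic fields. -/

set_option autoImplicit false

namespace Pool.Agent.W688.VT

open Pool.Agent.W114.VT

/-- characters into the units of a field with kernel containment -/
lemma chars {G : Type*} [Group G] {A : Type*} [Field A] (χ ψ : G →* Aˣ) (M : ℕ) (hM : 0 < M)
    (hχ : ∀ g, χ g ^ M = 1) (hker : ∀ g, χ g = 1 → ψ g = 1) :
    ∃ j : ℕ, ∀ g, ψ g = χ g ^ j := by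
  have : NeZero M := ⟨by omega⟩
  have hle : (χ.range : Set Aˣ) ⊆ (rootsOfUnity M A : Set Aˣ) := by
    rintro _ ⟨g, rfl⟩
    exact (mem_rootsOfUnity M _).mpr (hχ g)
  have hf1 : Finite (rootsOfUnity M A) := inferInstance
  have hf2 : (rootsOfUnity M A : Set Aˣ).Finite := hf1
  have hfin : Finite χ.range := hf2.subset hle
  have hcyc : IsCyclic χ.range := inferInstance
  obtain ⟨⟨_, g0, rfl⟩, hg0⟩ := IsCyclic.exists_generator (α := χ.range)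
  have hord : 0 < orderOf (χ g0) := by
    rw [orderOf_pos_iff, isOfFinOrder_iff_pow_eq_one]
    exact ⟨M, hM, hχ g0⟩
  have h1 : ψ g0 ^ orderOf (χ g0) = 1 := by
    rw [← map_pow]
    apply hker
    rw [map_pow]
    exact pow_orderOf_eq_one _
  have hpr : IsPrimitiveRoot ((χ g0 : Aˣ) : A) (orderOf (χ g0)) :=
    (IsPrimitiveRoot.orderOf (χ g0)).map_of_injective Units.coeHom_injective
  obtain ⟨j, _, hj⟩ := by
    have : NeZero (orderOf (χ g0)) := ⟨by omega⟩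
    exact hpr.eq_pow_of_pow_eq_one (ξ := ((ψ g0 : Aˣ) : A)) (by
      rw [← Units.val_pow_eq_pow_val, h1, Units.val_one])
  have hj' : ψ g0 = χ g0 ^ j := by
    apply Units.ext
    rw [Units.val_pow_eq_pow_val]
    exact hj.symm
  refine ⟨j, fun g => ?_⟩
  obtain ⟨m, hm⟩ := Subgroup.mem_zpowers_iff.mp (hg0 ⟨χ g, g, rfl⟩)
  have hm' : χ g0 ^ m = χ g := by
    have := congrArg Subtype.val hm
    simpa using this
  have h2 : ψ (g0 ^ (-m) * g) = 1 := by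
    apply hker
    rw [map_mul, map_zpow, zpow_neg, hm', inv_mul_cancel]
  have h3 : ψ g = ψ g0 ^ m := by
    rw [map_mul, map_zpow, zpow_neg] at h2
    exact (inv_mul_eq_one.mp h2).symm
  rw [h3, hj', ← hm', ← zpow_natCast, ← zpow_natCast, ← zpow_mul, ← zpow_mul, mul_comm]

section gen

variable {A : Type} [Field A] [CharZero A]

/-- the stabiliser of an element -/
def stab (x : A) : Subgroup (A ≃ₐ[ℚ] A) where
  carrier := {τ | τ x = x}
  mul_mem' := by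
    intro a b ha hb
    change a (b x) = x
    rw [show b x = x from hb]
    exact ha
  one_mem' := rfl
  inv_mem' := by
    intro a ha
    change a.symm x = x
    rw [AlgEquiv.symm_apply_eq]
    exact ha.symm

/-- the Kummer character -/
noncomputable def kum (ξ : A) (M : ℕ) [NeZero M] (hξ : IsPrimitiveRoot ξ M) (x : A) (hx : x ≠ 0)
    (hfix : ∀ τ ∈ stab ξ, τ (x ^ M) = x ^ M) : stab ξ →* Aˣ where
  toFun τ := Units.mk0 ((τ : A ≃ₐ[ℚ] A) x / x)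
    (div_ne_zero (by rw [Ne, EmbeddingLike.map_eq_zero_iff]; exact hx) hx)
  map_one' := by
    apply Units.ext
    simp [hx]
  map_mul' := by
    rintro ⟨τ, hτ⟩ ⟨τ', hτ'⟩
    apply Units.ext
    simp only [Units.val_mk0, Units.val_mul]
    have h1 : (τ' x / x) ^ M = 1 := by
      rw [div_pow, ← map_pow, hfix τ' hτ', div_self (pow_ne_zero _ hx)]
    obtain ⟨i, _, hi⟩ := hξ.eq_pow_of_pow_eq_one h1
    have h2 : τ (τ' x / x) = τ' x / x := by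
      rw [← hi, map_pow, show τ ξ = ξ from hτ]
    have h3 : τ' x = (τ' x / x) * x := (div_mul_cancel₀ _ hx).symm
    change τ (τ' x) / x = (τ x / x) * (τ' x / x)
    have h4 : τ (τ' x) = τ ((τ' x / x) * x) := by rw [← h3]
    rw [h4, map_mul, h2]
    ring

/-- step (K) -/
lemma stepK (ξ : A) (M : ℕ) [NeZero M] (hξ : IsPrimitiveRoot ξ M) (ν y : A) (hν : ν ≠ 0)
    (hy : y ≠ 0) (hfν : ∀ τ ∈ stab ξ, τ (ν ^ M) = ν ^ M) (hfy : ∀ τ ∈ stab ξ, τ (y ^ M) = y ^ M)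
    (h : ∀ τ ∈ stab ξ, τ ν = ν → τ y = y) :
    ∃ j : ℕ, ∀ τ ∈ stab ξ, τ (y / ν ^ j) = y / ν ^ j := by
  obtain ⟨j, hj⟩ := chars (kum ξ M hξ ν hν hfν) (kum ξ M hξ y hy hfy) M (Nat.pos_of_ne_zero
    (NeZero.ne M)) (by
      rintro ⟨τ, hτ⟩
      apply Units.ext
      change ((τ ν / ν) : A) ^ M = 1
      rw [div_pow, ← map_pow, hfν τ hτ, div_self (pow_ne_zero _ hν)]) (by
      rintro ⟨τ, hτ⟩ h1
      have h2 : τ ν / ν = 1 := congrArg Units.val h1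
      have h3 : τ ν = ν := (div_eq_one_iff_eq hν).mp h2
      apply Units.ext
      change τ y / y = 1
      rw [h τ hτ h3, div_self hy])
  refine ⟨j, fun τ hτ => ?_⟩
  have h1 : τ y / y = (τ ν / ν) ^ j := by
    have := congrArg Units.val (hj ⟨τ, hτ⟩)
    rw [Units.val_pow_eq_pow_val] at this
    exact this
  have hτν : τ ν ≠ 0 := by rw [Ne, EmbeddingLike.map_eq_zero_iff]; exact hν
  have h2 : τ y = (τ ν / ν) ^ j * y := by
    rw [← h1, div_mul_cancel₀ _ hy]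
  rw [map_div₀, map_pow, h2, div_pow]
  field_simp

/-- step (R) -/
lemma stepR (ζ : A) (M : ℕ) (hM : 0 < M) (hζ : IsPrimitiveRoot ζ M) (c : A ≃ₐ[ℚ] A)
    (hcζ : c ζ = ζ⁻¹) (r : A) (hr : r ≠ 0) (hrH : ∀ τ : A ≃ₐ[ℚ] A, τ ζ = ζ → τ r = r)
    (hcr : c r = r) (hrM : ∀ τ : A ≃ₐ[ℚ] A, τ (r ^ M) = r ^ M) (τ : A ≃ₐ[ℚ] A) :
    τ r = r ∨ τ r = -r := by
  have : NeZero M := ⟨by omega⟩
  -- c τ r = τ r
  obtain ⟨i, _, hi⟩ := hζ.eq_pow_of_pow_eq_one (ξ := τ ζ) (by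
    rw [← map_pow, hζ.pow_eq_one, map_one])
  have h1 : c (τ ζ) = τ (c ζ) := by
    rw [hcζ, map_inv₀, ← hi, map_pow, hcζ, inv_pow]
  have h2 : (τ.symm (c.symm (τ (c r)))) = r := by
    have := hrH ((c.trans τ).trans (c.symm.trans τ.symm)) (by
      change τ.symm (c.symm (τ (c ζ))) = ζ
      rw [← h1, AlgEquiv.symm_apply_apply, AlgEquiv.symm_apply_apply])
    exact this
  have h3 : c (τ r) = τ r := by
    rw [hcr, AlgEquiv.symm_apply_eq, AlgEquiv.symm_apply_eq] at h2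
    exact h2.symm
  have h4 : (τ r / r) ^ M = 1 := by
    rw [div_pow, ← map_pow, hrM, div_self (pow_ne_zero _ hr)]
  obtain ⟨k, _, hk⟩ := hζ.eq_pow_of_pow_eq_one h4
  have h5 : c (τ r / r) = τ r / r := by rw [map_div₀, h3, hcr]
  have h6 : c (τ r / r) = (τ r / r)⁻¹ := by
    rw [← hk, map_pow, hcζ, inv_pow]
  rw [h5] at h6
  have hτr : τ r ≠ 0 := by rw [Ne, EmbeddingLike.map_eq_zero_iff]; exact hr
  have h7 : (τ r / r) * (τ r / r) = 1 := by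
    nth_rw 2 [h6]
    exact mul_inv_cancel₀ (div_ne_zero hτr hr)
  rcases mul_self_eq_one_iff.mp h7 with h | h
  · left
    exact (div_eq_one_iff_eq hr).mp h
  · right
    rw [div_eq_iff hr] at h
    rw [h]; ring

/-- complex conjugation on the algebraic closure -/
lemma exConj [IsAlgClosed A] [Algebra.IsAlgebraic ℚ A] : ∃ (ι : A →+* ℂ) (c : A ≃ₐ[ℚ] A),
    ∀ x, ι (c x) = (starRingEnd ℂ) (ι x) := by
  let ι : A →ₐ[ℚ] ℂ := IsAlgClosed.lift
  let _ : Algebra A ℂ := ι.toRingHom.toAlgebra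
  have : IsAlgClosure ℚ A := ⟨inferInstance, inferInstance⟩
  have hN : Normal ℚ A := IsAlgClosure.normal ℚ A
  have : IsScalarTower ℚ A ℂ := IsScalarTower.of_algebraMap_eq (fun x => (ι.commutes x).symm)
  let κ : ℂ ≃ₐ[ℚ] ℂ := AlgEquiv.restrictScalars ℚ Complex.conjAe
  refine ⟨ι.toRingHom, κ.restrictNormal A, fun x => ?_⟩
  exact AlgEquiv.restrictNormal_commutes κ A x

/-- a primitive root of unity -/
lemma exPrim [IsAlgClosed A] (N : ℕ) (hN : 0 < N) : ∃ ζ : A, IsPrimitiveRoot ζ N := by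
  have : NeZero (N : A) := ⟨by exact_mod_cast hN.ne'⟩
  obtain ⟨ζ, hζ⟩ := IsAlgClosed.exists_root (Polynomial.cyclotomic N A) (by
    rw [Polynomial.degree_cyclotomic]
    have := Nat.totient_pos.mpr hN
    exact_mod_cast this.ne')
  exact ⟨ζ, Polynomial.isRoot_cyclotomic_iff.mp hζ⟩

/-- a root fixed by conjugation -/
lemma exReal [IsAlgClosed A] (ι : A →+* ℂ) (c : A ≃ₐ[ℚ] A)
    (hc : ∀ x, ι (c x) = (starRingEnd ℂ) (ι x)) (M : ℕ) [NeZero M] (ξ : A)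
    (hξ : IsPrimitiveRoot ξ M) (n : ℕ) (hn : 0 < n) : ∃ ν : A, ν ^ M = n ∧ c ν = ν := by
  have hM : 0 < M := Nat.pos_of_ne_zero (NeZero.ne M)
  obtain ⟨ν0, hν0⟩ := IsAlgClosed.exists_pow_nat_eq (n : A) hM
  let r : ℝ := (n : ℝ) ^ ((M : ℝ)⁻¹)
  have hr : r ^ M = n := Real.rpow_inv_natCast_pow (by positivity) (NeZero.ne M)
  have hnC : (n : ℂ) ≠ 0 := by exact_mod_cast hn.ne'
  have hι0 : ι ν0 ≠ 0 := by
    intro h
    have h1 : ι (ν0 ^ M) = 0 := by rw [map_pow, h, zero_pow (NeZero.ne M)]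
    rw [hν0, map_natCast] at h1
    exact hnC h1
  have h1 : ((r : ℂ) / ι ν0) ^ M = 1 := by
    rw [div_pow, ← map_pow, hν0, map_natCast, ← Complex.ofReal_pow, hr]
    simp [hnC]
  have hξ' : IsPrimitiveRoot (ι ξ) M := hξ.map_of_injective ι.injective
  obtain ⟨i, _, hi⟩ := hξ'.eq_pow_of_pow_eq_one h1
  have h2 : ι (ξ ^ i * ν0) = (r : ℂ) := by
    rw [map_mul, map_pow, hi, div_mul_cancel₀ _ hι0]
  refine ⟨ξ ^ i * ν0, ?_, ?_⟩
  · rw [mul_pow, hν0, ← pow_mul, mul_comm i M, pow_mul, hξ.pow_eq_one, one_pow, one_mul]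
  · apply ι.injective
    rw [hc, h2, Complex.conj_ofReal]

/-- conjugation inverts roots of unity -/
lemma conjPrim (ι : A →+* ℂ) (c : A ≃ₐ[ℚ] A)
    (hc : ∀ x, ι (c x) = (starRingEnd ℂ) (ι x)) (M : ℕ) (hM : 0 < M) (ζ : A)
    (hζ : IsPrimitiveRoot ζ M) : c ζ = ζ⁻¹ := by
  apply ι.injective
  rw [hc, map_inv₀]
  symm
  apply Complex.inv_eq_conj
  have hζ' : IsPrimitiveRoot (ι ζ) M := hζ.map_of_injective ι.injective
  exact hζ'.norm'_eq_one hM.ne'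

/-- an automorphism with prescribed action on a root of unity -/
lemma exAut [IsAlgClosed A] [Algebra.IsAlgebraic ℚ A] (ζ : A) (M k : ℕ) (hM : 0 < M)
    (hζ : IsPrimitiveRoot ζ M) (hk : k.Coprime M) : ∃ τ : A ≃ₐ[ℚ] A, τ ζ = ζ ^ k := by
  have : IsAlgClosure ℚ A := ⟨inferInstance, inferInstance⟩
  have hN : Normal ℚ A := IsAlgClosure.normal ℚ A
  have h1 : IsPrimitiveRoot (ζ ^ k) M := hζ.pow_of_coprime k hk
  have h2 : IsConjRoot ℚ (ζ ^ k) ζ := by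
    unfold IsConjRoot
    rw [← Polynomial.cyclotomic_eq_minpoly_rat h1 hM, ← Polynomial.cyclotomic_eq_minpoly_rat hζ hM]
  obtain ⟨σ, hσ⟩ := isConjRoot_iff_exists_algEquiv.mp h2
  exact ⟨σ, hσ⟩

/-- (1) -/
lemma step1 [IsAlgClosed A] [Algebra.IsAlgebraic ℚ A] (e n : ℕ) (he : 3 ≤ e) (hn : 0 < n)
    (ζ ν : A) (hζ : IsPrimitiveRoot ζ (2 ^ (e + 1))) (c : A ≃ₐ[ℚ] A) (hcζ : c ζ = ζ⁻¹)
    (hν : ν ^ 2 ^ e = n) (hcν : c ν = ν) :
    ∃ τ : A ≃ₐ[ℚ] A, τ (ζ ^ 2) = ζ ^ 2 ∧ τ ν = ν ∧ τ ζ ≠ ζ := by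
  by_contra hcon
  push Not at hcon
  have hζ0 : ζ ≠ 0 := hζ.ne_zero (by positivity)
  have hnA : (n : A) ≠ 0 := by exact_mod_cast hn.ne'
  have hν0 : ν ≠ 0 := by
    intro h
    rw [h, zero_pow (by positivity)] at hν
    exact hnA hν.symm
  have hNe : NeZero (2 ^ e) := ⟨by positivity⟩
  have hξ : IsPrimitiveRoot (ζ ^ 2) (2 ^ e) :=
    hζ.pow (by positivity) (show 2 ^ (e + 1) = 2 * 2 ^ e by ring)
  have hζe : ζ ^ 2 ^ e = -1 := by
    have h1 : (ζ ^ 2 ^ e) ^ 2 = 1 := by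
      rw [← pow_mul, ← pow_succ]; exact hζ.pow_eq_one
    rw [sq] at h1
    rcases mul_self_eq_one_iff.mp h1 with h | h
    · exact absurd h (hζ.pow_ne_one_of_pos_of_lt (by positivity)
        (by rw [pow_succ]; have : 0 < 2 ^ e := by positivity
            omega))
    · exact h
  obtain ⟨j, hj⟩ := stepK (ζ ^ 2) (2 ^ e) hξ ν ζ hν0 hζ0
    (fun τ _ => by rw [hν, map_natCast]) (fun τ _ => by rw [hζe, map_neg, map_one])
    (fun τ hτ hτν => hcon τ hτ hτν)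
  have hr0 : ν ^ j ≠ 0 := pow_ne_zero _ hν0
  have hrH : ∀ τ : A ≃ₐ[ℚ] A, τ ζ = ζ → τ (ν ^ j) = ν ^ j := by
    intro τ hτ
    have h1 := hj τ (by change τ (ζ ^ 2) = ζ ^ 2; rw [map_pow, hτ])
    rw [map_div₀, hτ] at h1
    have hτr : τ (ν ^ j) ≠ 0 := by rw [Ne, EmbeddingLike.map_eq_zero_iff]; exact hr0
    rw [div_eq_div_iff hτr hr0] at h1
    exact (mul_left_cancel₀ hζ0 h1).symm
  have hR := stepR ζ (2 ^ (e + 1)) (by positivity) hζ c hcζ (ν ^ j) hr0 hrH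
    (by rw [map_pow, hcν]) (by
      intro τ
      have : (ν ^ j) ^ 2 ^ (e + 1) = ((n : A) ^ j) ^ 2 := by
        rw [← hν]; ring
      rw [this, map_pow, map_pow, map_natCast])
  obtain ⟨τ, hτ⟩ := exAut ζ (2 ^ (e + 1)) (1 + 2 ^ (e - 1)) (by positivity) hζ (by
    apply Nat.Coprime.pow_right
    rw [Nat.coprime_two_right]
    have : Even (2 ^ (e - 1)) := (Nat.even_pow.mpr ⟨even_two, by omega⟩)
    exact this.one_add)
  -- τ ^ 2
  have h1 : τ (τ (ν ^ j)) = ν ^ j := by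
    rcases hR τ with h | h
    · rw [h, h]
    · rw [h, map_neg, h, neg_neg]
  have h2 : τ (τ ζ) = -ζ := by
    rw [hτ, map_pow, hτ, ← pow_mul]
    have h3 : (1 + 2 ^ (e - 1)) * (1 + 2 ^ (e - 1)) = 1 + 2 ^ e + 2 ^ (e + 1) * 2 ^ (e - 3) := by
      obtain ⟨d, rfl⟩ : ∃ d, e = d + 3 := ⟨e - 3, by omega⟩
      simp only [Nat.add_sub_cancel, show d + 3 - 1 = d + 2 by omega]
      ring
    rw [h3, pow_add, pow_mul, hζ.pow_eq_one, one_pow, mul_one, pow_add, hζe]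
    ring
  have h3 : τ (τ (ζ ^ 2)) = ζ ^ 2 := by
    rw [map_pow, map_pow, h2]; ring
  have h4 := hj (τ.trans τ) h3
  change τ (τ (ζ / ν ^ j)) = ζ / ν ^ j at h4
  rw [map_div₀, map_div₀, h1, h2, div_left_inj' hr0] at h4
  have h5 : (2 : A) * ζ = 0 := by linear_combination (-1 : A) * h4
  rcases mul_eq_zero.mp h5 with h | h
  · exact two_ne_zero h
  · exact hζ0 h

/-- (2) -/
lemma step2 [IsAlgClosed A] [Algebra.IsAlgebraic ℚ A] (p a u l e : ℕ) (he : 3 ≤ e)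
    (hp : p.Prime) (ha : Odd a) (hu : 2 ≤ u) (hpu : ¬ p ∣ u) (hl : l.Prime) (hlu : l ∣ u)
    (hle : padicValNat l u < 2 ^ (e - 1))
    (ζ ν υ : A) (hζ : IsPrimitiveRoot ζ (2 ^ (e + 1))) (c : A ≃ₐ[ℚ] A) (hcζ : c ζ = ζ⁻¹)
    (hν : ν ^ 2 ^ e = ((p ^ a * u : ℕ) : A)) (hcν : c ν = ν) (hυ : υ ^ 2 ^ e = u)
    (hcυ : c υ = υ) :
    ∃ τ : A ≃ₐ[ℚ] A, τ (ζ ^ 2) = ζ ^ 2 ∧ τ ν = ν ∧ τ υ ≠ υ := by
  by_contra hcon
  push Not at hcon
  have hζ0 : ζ ≠ 0 := hζ.ne_zero (by positivity)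
  have hpa : 0 < p ^ a := pow_pos hp.pos a
  have hnA : ((p ^ a * u : ℕ) : A) ≠ 0 := by
    have : p ^ a * u ≠ 0 := by positivity
    exact_mod_cast this
  have huA : (u : A) ≠ 0 := by
    have : u ≠ 0 := by positivity
    exact_mod_cast this
  have hν0 : ν ≠ 0 := by
    intro h
    rw [h, zero_pow (by positivity)] at hν
    exact hnA hν.symm
  have hυ0 : υ ≠ 0 := by
    intro h
    rw [h, zero_pow (by positivity)] at hυ
    exact huA hυ.symm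
  have hNe : NeZero (2 ^ e) := ⟨by positivity⟩
  have hξ : IsPrimitiveRoot (ζ ^ 2) (2 ^ e) :=
    hζ.pow (by positivity) (show 2 ^ (e + 1) = 2 * 2 ^ e by ring)
  obtain ⟨j, hj⟩ := stepK (ζ ^ 2) (2 ^ e) hξ ν υ hν0 hυ0
    (fun τ _ => by rw [hν, map_natCast]) (fun τ _ => by rw [hυ, map_natCast])
    (fun τ hτ hτν => hcon τ hτ hτν)
  have hr0 : υ / ν ^ j ≠ 0 := div_ne_zero hυ0 (pow_ne_zero _ hν0)
  have hrH : ∀ τ : A ≃ₐ[ℚ] A, τ ζ = ζ → τ (υ / ν ^ j) = υ / ν ^ j := by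
    intro τ hτ
    exact hj τ (by change τ (ζ ^ 2) = ζ ^ 2; rw [map_pow, hτ])
  have hrpow : (υ / ν ^ j) ^ 2 ^ e = (u : A) / ((p ^ a * u : ℕ) : A) ^ j := by
    rw [div_pow, hυ, ← hν]; ring
  have hR := stepR ζ (2 ^ (e + 1)) (by positivity) hζ c hcζ (υ / ν ^ j) hr0 hrH
    (by rw [map_div₀, map_pow, hcν, hcυ]) (by
      intro τ
      have : (υ / ν ^ j) ^ 2 ^ (e + 1) = ((u : A) / ((p ^ a * u : ℕ) : A) ^ j) ^ 2 := by
        rw [← hrpow]; ring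
      rw [this, map_pow, map_div₀, map_pow, map_natCast, map_natCast])
  have : IsAlgClosure ℚ A := ⟨inferInstance, inferInstance⟩
  have hN : Normal ℚ A := IsAlgClosure.normal ℚ A
  have hG : IsGalois ℚ A := ⟨⟩
  have hs : (υ / ν ^ j) ^ 2 ∈ (⊥ : IntermediateField ℚ A) := by
    rw [InfiniteGalois.mem_bot_iff_fixed]
    intro τ
    rw [map_pow]
    rcases hR τ with h | h
    · rw [h]
    · rw [h]; ring
  obtain ⟨s, hs⟩ := IntermediateField.mem_bot.mp hs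
  have h1 : (s ^ 2 ^ (e - 1) * ((p ^ a * u : ℕ) : ℚ) ^ j : ℚ) = (u : ℚ) := by
    apply (algebraMap ℚ A).injective
    rw [map_mul, map_pow, map_pow, map_natCast, map_natCast, hs, ← pow_mul,
      ← pow_succ', Nat.sub_add_cancel (by omega), hrpow, div_mul_cancel₀ _ (pow_ne_zero _ hnA)]
  have hs0 : s ≠ 0 := by
    rintro rfl
    rw [zero_pow (by positivity), zero_mul] at h1
    have : u = 0 := by exact_mod_cast h1.symm
    omega
  have hval : ∀ r : ℕ, r.Prime → (2 : ℤ) ^ (e - 1) * padicValRat r s +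
      j * (a * (padicValNat r p : ℤ) + padicValNat r u) = padicValNat r u := by
    intro r hr
    have : Fact r.Prime := ⟨hr⟩
    have h2 := congrArg (padicValRat r) h1
    rw [padicValRat.mul (pow_ne_zero _ hs0) (pow_ne_zero _ (by
      have : p ^ a * u ≠ 0 := by positivity
      exact_mod_cast this)), padicValRat.pow, padicValRat.pow, padicValRat.of_nat,
      padicValRat.of_nat, padicValNat.mul (by positivity) (by positivity), padicValNat.pow] at h2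
    push_cast at h2
    rw [padicValRat.of_nat, padicValRat.of_nat] at h2
    exact h2
  have hlp : l ≠ p := by
    rintro rfl
    exact hpu hlu
  have v1 := hval p hp
  have v2 := hval l hl
  have : Fact p.Prime := ⟨hp⟩
  have : Fact l.Prime := ⟨hl⟩
  rw [padicValNat_self, padicValNat.eq_zero_of_not_dvd hpu] at v1
  rw [padicValNat_primes hlp] at v2
  -- 2 ^ (e-1) ∣ j
  have d1 : (2 : ℤ) ^ (e - 1) ∣ (j : ℤ) * a := ⟨-padicValRat p s, by push_cast at v1; linarith⟩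
  have d2 : 2 ^ (e - 1) ∣ j * a := by exact_mod_cast d1
  have d3 : 2 ^ (e - 1) ∣ j :=
    (Nat.Coprime.pow_left _ (Nat.coprime_two_left.mpr ha)).dvd_of_dvd_mul_right d2
  obtain ⟨j', hj'⟩ := d3
  have d4 : (2 : ℤ) ^ (e - 1) ∣ (padicValNat l u : ℤ) := by
    refine ⟨padicValRat l s + j' * padicValNat l u, ?_⟩
    rw [hj', Nat.cast_mul, Nat.cast_pow, Nat.cast_ofNat, Nat.cast_zero, mul_zero, zero_add] at v2
    linarith
  have d5 : 2 ^ (e - 1) ∣ padicValNat l u := by exact_mod_cast d4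
  have d6 : 0 < padicValNat l u := by
    have := one_le_padicValNat_of_dvd (p := l) (n := u) (by omega) hlu
    omega
  exact absurd (Nat.le_of_dvd d6 d5) (by omega)

/-- the generic form -/
lemma vf_gen [IsAlgClosed A] [Algebra.IsAlgebraic ℚ A] (p a u : ℕ)
    (hp : p.Prime) (ha : Odd a) (hu : 2 ≤ u) (hpu : ¬ p ∣ u) :
    ∃ (e : ℕ) (σ : A ≃ₐ[ℚ] A) (ζ ν υ : A), IsPrimitiveRoot ζ (2 ^ (e + 1)) ∧
      ν ^ 2 ^ e = ((p ^ a * u : ℕ) : A) ∧ υ ^ 2 ^ e = (u : A) ∧ σ (ζ ^ 2) = ζ ^ 2 ∧ σ ζ ≠ ζ ∧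
      σ ν = ν ∧ σ υ ≠ υ := by
  obtain ⟨l, hl, hlu⟩ := Nat.exists_prime_and_dvd (show u ≠ 1 by omega)
  obtain ⟨e, he, hle⟩ : ∃ e, 3 ≤ e ∧ padicValNat l u < 2 ^ (e - 1) := by
    refine ⟨padicValNat l u + 3, by omega, ?_⟩
    calc padicValNat l u < 2 ^ padicValNat l u := Nat.lt_two_pow_self
      _ ≤ 2 ^ (padicValNat l u + 3 - 1) := Nat.pow_le_pow_right (by norm_num) (by omega)
  obtain ⟨ι, c, hc⟩ := exConj (A := A)
  obtain ⟨ζ, hζ⟩ := exPrim (A := A) (2 ^ (e + 1)) (by positivity)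
  have hNe : NeZero (2 ^ e) := ⟨by positivity⟩
  have hξ : IsPrimitiveRoot (ζ ^ 2) (2 ^ e) :=
    hζ.pow (by positivity) (show 2 ^ (e + 1) = 2 * 2 ^ e by ring)
  have hpa : 0 < p ^ a := pow_pos hp.pos a
  obtain ⟨ν, hν, hcν⟩ := exReal ι c hc (2 ^ e) (ζ ^ 2) hξ (p ^ a * u) (by positivity)
  obtain ⟨υ, hυ, hcυ⟩ := exReal ι c hc (2 ^ e) (ζ ^ 2) hξ u (by omega)
  have hcζ := conjPrim ι c hc (2 ^ (e + 1)) (by positivity) ζ hζ
  obtain ⟨τ1, h11, h12, h13⟩ := step1 e (p ^ a * u) he (by positivity) ζ ν hζ c hcζ hν hcν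
  obtain ⟨τ2, h21, h22, h23⟩ := step2 p a u l e he hp ha hu hpu hl hlu hle ζ ν υ hζ c hcζ
    hν hcν hυ hcυ
  by_cases h1 : τ1 υ = υ
  · by_cases h2 : τ2 ζ = ζ
    · refine ⟨e, τ2.trans τ1, ζ, ν, υ, hζ, hν, hυ, ?_, ?_, ?_, ?_⟩
      · change τ1 (τ2 (ζ ^ 2)) = ζ ^ 2
        rw [h21, h11]
      · change τ1 (τ2 ζ) ≠ ζ
        rw [h2]; exact h13
      · change τ1 (τ2 ν) = ν
        rw [h22, h12]
      · change τ1 (τ2 υ) ≠ υ
        intro h
        apply h23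
        apply τ1.injective
        rw [h, h1]
    · exact ⟨e, τ2, ζ, ν, υ, hζ, hν, hυ, h21, h2, h22, h23⟩
  · exact ⟨e, τ1, ζ, ν, υ, hζ, hν, hυ, h11, h13, h12, h1⟩

end gen

theorem vf : S_VF := by
  intro p a u hp ha hu hpu
  have := algInst
  obtain ⟨e, σ, ζ, ν, υ, h1, h2, h3, h4, h5, h6, h7⟩ :=
    vf_gen (A := AlgebraicClosure ℚ) p a u hp ha hu hpu
  exact ⟨e, σ, ζ, ν, υ, h1, h2, h3, h4, h5, h6, h7⟩

end Pool.Agent.W688.VT
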